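import Pool.Agent.Helper14.BSC.Stmts

/-!
MP_8312c9_nt, modules CYC, GD1, ROOT.
-/

set_option autoImplicit false

namespace Pool.Agent.Helper14.BSC

theorem cyc_norm_p (p : ℕ) [Fact p.Prime] : ‖((p : ℕ) : ℂ_[p])‖ = (p : ℝ)⁻¹ := by
  have h1 := PadicComplex.norm_extends' (p := p) ((p : ℕ) : ℚ_[p])
  rw [← Padic.norm_p (p := p), ← h1]
  congr 1
  exact (map_natCast (algebraMap ℚ_[p] ℂ_[p]) p).symm

theorem st_CYC : ST_CYC := by
  intro k Ω _ _ _ p _ Lc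
  have hp : p.Prime := Fact.out
  have hp0 : 0 < p := hp.pos
  set z : ℂ_[p] := Lc.ι Lc.ζ with hz
  have hzp : z ^ p = 1 := by rw [hz, ← map_pow, Lc.prim.pow_eq_one, map_one]
  have hprim : IsPrimitiveRoot z p := Lc.prim.map_of_injective Lc.ι.injective
  have hnz : ‖z‖ = 1 := by
    have h1 : ‖z‖ ^ p = 1 := by rw [← norm_pow, hzp, norm_one]
    exact (pow_eq_one_iff_of_nonneg (norm_nonneg z) hp0.ne').1 h1
  -- `|1 - z^i| ≤ |1 - z|`
  have hle : ∀ (w : ℂ_[p]), ‖w‖ = 1 → ∀ i : ℕ, ‖1 - w ^ i‖ ≤ ‖1 - w‖ := by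
    intro w hw i
    have h1 : 1 - w ^ i = (1 - w) * ∑ j ∈ Finset.range i, w ^ j := by
      rw [mul_neg_geom_sum]
    rw [h1, norm_mul]
    have h2 : ‖∑ j ∈ Finset.range i, w ^ j‖ ≤ 1 := by
      refine IsUltrametricDist.norm_sum_le_of_forall_le_of_nonneg zero_le_one fun j _ => ?_
      rw [norm_pow, hw, one_pow]
    calc ‖1 - w‖ * ‖∑ j ∈ Finset.range i, w ^ j‖ ≤ ‖1 - w‖ * 1 :=
          mul_le_mul_of_nonneg_left h2 (norm_nonneg _)
      _ = ‖1 - w‖ := mul_one _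
  have heq : ∀ i : ℕ, ¬ p ∣ i → ‖1 - z ^ i‖ = ‖1 - z‖ := by
    intro i hi
    refine le_antisymm (hle z hnz i) ?_
    have hcop : Nat.Coprime i p := ((Nat.Prime.coprime_iff_not_dvd hp).2 hi).symm
    obtain ⟨a, _, ha⟩ := Nat.exists_mul_mod_eq_one_of_coprime hcop hp.one_lt
    have h1 : i * a = p * (i * a / p) + 1 := by
      have := Nat.div_add_mod (i * a) p
      rw [ha] at this
      exact this.symm
    have h2 : (z ^ i) ^ a = z := by
      rw [← pow_mul, h1, pow_add, pow_mul, hzp, one_pow, one_mul, pow_one]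
    have h3 := hle (z ^ i) (by rw [norm_pow, hnz, one_pow]) a
    rw [h2] at h3
    exact h3
  have hprod : ∏ i ∈ Finset.range (p - 1), (1 - z ^ (i + 1)) = ((p : ℕ) : ℂ_[p]) := by
    have h1 : IsPrimitiveRoot z (p - 1 + 1) := by rwa [Nat.sub_add_cancel hp0]
    rw [h1.prod_one_sub_pow_eq_order]
    have h2 : ((p : ℕ) : ℂ_[p]) = ((p - 1 + 1 : ℕ) : ℂ_[p]) := by rw [Nat.sub_add_cancel hp0]
    rw [h2]
    push_cast
    ring
  have hfin : ‖1 - z‖ ^ (p - 1) = (p : ℝ)⁻¹ := by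
    rw [← cyc_norm_p p, ← hprod, norm_prod]
    have h1 : ∀ i ∈ Finset.range (p - 1), ‖1 - z ^ (i + 1)‖ = ‖1 - z‖ := by
      intro i hi
      apply heq
      rw [Finset.mem_range] at hi
      exact Nat.not_dvd_of_pos_of_lt (Nat.succ_pos i) (by omega)
    rw [Finset.prod_congr rfl h1, Finset.prod_const, Finset.card_range]
  unfold nm
  rw [map_sub, map_one, ← hfin, norm_sub_rev]

theorem st_GD1 : ST_GD1 := by
  intro k Ω _ _ _ p _ Lc
  have hπ0 : Lc.π ≠ 0 := by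
    intro h
    have := Lc.posπ
    rw [h, map_zero, norm_zero] at this
    exact lt_irrefl _ this
  refine ⟨le_rfl, Lc.memπ, Lc.posπ, Lc.ltπ, ?_⟩
  intro x hx hx0
  obtain ⟨j, hj⟩ := Lc.disc x hx hx0
  have hz : Lc.π ^ j ≠ 0 := zpow_ne_zero j hπ0
  refine ⟨j, x / Lc.π ^ j, div_mem hx (zpow_mem Lc.memπ j), ?_, ?_⟩
  · unfold nm
    rw [map_div₀, map_zpow₀, norm_div, norm_zpow, hj]
    exact div_self (zpow_ne_zero j Lc.posπ.ne')
  · rw [div_mul_cancel₀ _ hz, sub_self]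
    unfold nm
    rw [map_zero, norm_zero]
    exact zpow_pos Lc.posπ j

theorem st_ROOT : ST_ROOT := by
  intro k Ω _ _ _ D S n hn y c hyc
  have h1 : ((y : Ω)) ^ n = ((c : Acl k Ω) : Ω) := by
    have h2 := congrArg (fun t : NN D S => (t : Ω)) hyc
    exact h2
  have h3 : (y : Ω) ∈ Acl k Ω := by
    have h4 : IsAlgebraic k ((y : Ω) ^ n) := by
      rw [h1]
      exact mem_algebraicClosure_iff.1 (c : Acl k Ω).2
    rw [mem_algebraicClosure_iff]
    exact (IsAlgebraic.of_pow hn h4)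
  refine ⟨⟨⟨(y : Ω), h3⟩, ?_⟩, ?_⟩
  · rw [← coe_mem_NN (D := D)]
    exact y.2
  · apply Subtype.ext
    rfl

end Pool.Agent.Helper14.BSC
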