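import Pool.Agent.Helper14.BSC.Stmts

/-!
MP_8312c9_nt, module GD2: the totally ramified extension `F₁(ϖ)`, `ϖ ^ p = π c₀`, is good.
-/

set_option autoImplicit false

namespace Pool.Agent.Helper14.BSC

section

variable {k Ω : Type} [Field k] [Field Ω] [Algebra k Ω] {p : ℕ} [Fact p.Prime]

theorem gd2_nm_mul (Lc : Loc k Ω p) (x y : Acl k Ω) : nm Lc (x * y) = nm Lc x * nm Lc y := by
  unfold nm
  rw [map_mul, norm_mul]

theorem gd2_nm_div (Lc : Loc k Ω p) (x y : Acl k Ω) : nm Lc (x / y) = nm Lc x / nm Lc y := by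
  unfold nm
  rw [map_div₀, norm_div]

theorem gd2_nm_pow (Lc : Loc k Ω p) (x : Acl k Ω) (n : ℕ) : nm Lc (x ^ n) = nm Lc x ^ n := by
  unfold nm
  rw [map_pow, norm_pow]

theorem gd2_nm_zpow (Lc : Loc k Ω p) (x : Acl k Ω) (n : ℤ) : nm Lc (x ^ n) = nm Lc x ^ n := by
  unfold nm
  rw [map_zpow₀, norm_zpow]

theorem gd2_nm_zero (Lc : Loc k Ω p) : nm Lc 0 = 0 := by
  unfold nm
  rw [map_zero, norm_zero]

theorem gd2_nm_nonneg (Lc : Loc k Ω p) (x : Acl k Ω) : 0 ≤ nm Lc x := norm_nonneg _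

theorem gd2_nm_pos (Lc : Loc k Ω p) {x : Acl k Ω} (hx : x ≠ 0) : 0 < nm Lc x := by
  unfold nm
  exact norm_pos_iff.2 (fun h => hx ((map_eq_zero Lc.ι).1 h))

theorem gd2_nm_add_lt (Lc : Loc k Ω p) {x y : Acl k Ω} {B : ℝ} (hx : nm Lc x < B)
    (hy : nm Lc y < B) : nm Lc (x + y) < B := by
  unfold nm at *
  rw [map_add]
  exact (IsUltrametricDist.norm_add_le_max _ _).trans_lt (max_lt hx hy)

theorem gd2_nm_sum_lt (Lc : Loc k Ω p) {ι : Type} [DecidableEq ι] (s : Finset ι)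
    (f : ι → Acl k Ω) {B : ℝ} (hB : 0 < B) (h : ∀ i ∈ s, nm Lc (f i) < B) :
    nm Lc (∑ i ∈ s, f i) < B := by
  induction s using Finset.induction_on with
  | empty =>
    rw [Finset.sum_empty, gd2_nm_zero]
    exact hB
  | insert a s ha ih =>
    rw [Finset.sum_insert ha]
    exact gd2_nm_add_lt Lc (h a (Finset.mem_insert_self a s))
      (ih fun i hi => h i (Finset.mem_insert_of_mem hi))

theorem gd2_zpow_inj {a : ℝ} (h0 : 0 < a) (h1 : a < 1) {i j : ℤ} (h : a ^ i = a ^ j) : i = j :=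
  zpow_right_injective₀ h0 h1.ne h

/-- powers of `τ` -/
theorem gd2_pow (S : Set (Acl k Ω)) {τ : GG k Ω} (hτ : τ ∈ Stab S) {ζ ϖ : Acl k Ω} (hζ : ζ ∈ FF S)
    (i : ℕ) (hϖ : τ ϖ = ζ ^ i * ϖ) (a : ℕ) : (τ ^ a) ϖ = ζ ^ (i * a) * ϖ := by
  induction a with
  | zero => simp
  | succ a ih =>
    rw [pow_succ', AlgEquiv.mul_apply, ih, map_mul, map_pow, hζ τ hτ, hϖ]
    ring

end

theorem st_GD2 : ST_GD2 := by
  intro k Ω _ _ _ _ _ p _ Lc c₀ ϖ hc₀ hn₀ hϖ
  classical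
  have hp : p.Prime := Fact.out
  have hp0 : 0 < p := hp.pos
  have hchar : CharZero (Acl k Ω) :=
    charZero_of_injective_algebraMap (algebraMap k (Acl k Ω)).injective
  have hpne : (p : Acl k Ω) ≠ 0 := by exact_mod_cast hp0.ne'
  have hπpos := Lc.posπ
  have hπlt := Lc.ltπ
  have hπ0 : Lc.π ≠ 0 := by
    intro h
    rw [h, map_zero, norm_zero] at hπpos
    exact lt_irrefl _ hπpos
  have hc₀0 : c₀ ≠ 0 := by
    intro h
    rw [h, gd2_nm_zero] at hn₀
    exact zero_ne_one hn₀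
  have hϖ0 : ϖ ≠ 0 := by
    intro h
    rw [h, zero_pow hp0.ne'] at hϖ
    exact (mul_ne_zero hπ0 hc₀0) hϖ.symm
  have hζ0 : Lc.ζ ≠ 0 := Lc.prim.ne_zero hp0.ne'
  -- norms
  have hnϖ : nm Lc ϖ ^ p = nm Lc Lc.π := by
    rw [← gd2_nm_pow, hϖ, gd2_nm_mul, hn₀, mul_one]
  have hϖpos : 0 < nm Lc ϖ := gd2_nm_pos Lc hϖ0
  have hϖlt : nm Lc ϖ < 1 := by
    by_contra hcon
    have h1 : 1 ≤ nm Lc ϖ ^ p := one_le_pow₀ (not_lt.1 hcon)
    rw [hnϖ] at h1
    exact absurd hπlt (not_lt.2 h1)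
  have hnπ : ∀ j : ℤ, nm Lc Lc.π ^ j = nm Lc ϖ ^ ((p : ℤ) * j) := by
    intro j
    rw [← hnϖ, zpow_mul, zpow_natCast]
  have hval : ∀ x ∈ FF Lc.S₁, x ≠ 0 → ∃ j : ℤ, nm Lc x = nm Lc ϖ ^ ((p : ℤ) * j) := by
    intro x hx hx0
    obtain ⟨j, hj⟩ := Lc.disc x hx hx0
    exact ⟨j, by rw [← hnπ]; exact hj⟩
  -- action on ϖ
  have hact : ∀ g ∈ Stab Lc.S₁, ∃ i < p, g ϖ = Lc.ζ ^ i * ϖ := by
    intro g hg
    have h1 : (g ϖ / ϖ) ^ p = 1 := by
      rw [div_pow, ← map_pow, hϖ, map_mul, Lc.memπ g hg, hc₀ g hg]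
      exact div_self (mul_ne_zero hπ0 hc₀0)
    obtain ⟨i, hi, hi'⟩ := Lc.prim.eq_pow_of_pow_eq_one h1
    refine ⟨i, hi, ?_⟩
    rw [hi']
    field_simp
  have hmove : ∃ g ∈ Stab Lc.S₁, g ϖ ≠ ϖ := by
    by_contra hcon
    push Not at hcon
    obtain ⟨j, hj⟩ := hval ϖ hcon hϖ0
    have h1 : (1 : ℤ) = (p : ℤ) * j := by
      apply gd2_zpow_inj hϖpos hϖlt
      rw [zpow_one]
      exact hj
    have h2 : (p : ℤ) ∣ 1 := ⟨j, h1⟩
    have h3 : p ∣ 1 := by exact_mod_cast h2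
    exact hp.one_lt.ne' (Nat.dvd_one.1 h3)
  obtain ⟨g, hg, hgϖ⟩ := hmove
  obtain ⟨i, hi, hgi⟩ := hact g hg
  have hi0 : i ≠ 0 := by
    intro h
    rw [h, pow_zero, one_mul] at hgi
    exact hgϖ hgi
  have hcop : Nat.Coprime i p := by
    rw [Nat.coprime_comm]
    exact (Nat.Prime.coprime_iff_not_dvd hp).2 (Nat.not_dvd_of_pos_of_lt (Nat.pos_of_ne_zero hi0) hi)
  obtain ⟨a, ha⟩ := Nat.exists_mul_mod_eq_one_of_coprime hcop hp.one_lt
  have hτS : g ^ a ∈ Stab Lc.S₁ := pow_mem hg a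
  have hτϖ : (g ^ a) ϖ = Lc.ζ * ϖ := by
    rw [gd2_pow Lc.S₁ hg Lc.memζ i hgi a]
    congr 1
    have h1 : i * a = p * (i * a / p) + 1 := by
      have := Nat.div_add_mod (i * a) p
      rw [ha.2] at this
      exact this.symm
    rw [h1, pow_add, pow_mul, Lc.prim.pow_eq_one, one_pow, one_mul, pow_one]
  obtain ⟨τ, hτ, hτ'⟩ : ∃ τ ∈ Stab Lc.S₁, τ ϖ = Lc.ζ * ϖ := ⟨g ^ a, hτS, hτϖ⟩
  refine ⟨⟨?_, ?_, hϖpos, hϖlt, ?_⟩, τ, hτ, hτ'⟩
  · intro g hg b hb
    exact hg b (Or.inl hb)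
  · exact subset_FF _ (Or.inr rfl)
  · intro x hx hx0
    -- Stab of the bigger set
    have hSt : ∀ h : GG k Ω, h ∈ Stab Lc.S₁ → h ϖ = ϖ → h ∈ Stab (Lc.S₁ ∪ {ϖ}) := by
      intro h hh hh' b hb
      rcases hb with hb | hb
      · exact hh b hb
      · rw [Set.mem_singleton_iff] at hb
        rw [hb]
        exact hh'
    have hSt' : ∀ h ∈ Stab (Lc.S₁ ∪ {ϖ}), h ∈ Stab Lc.S₁ ∧ h ϖ = ϖ := by
      intro h hh
      exact ⟨fun b hb => hh b (Or.inl hb), hh ϖ (Or.inr rfl)⟩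
    have hτζ : τ Lc.ζ = Lc.ζ := Lc.memζ τ hτ
    have hpowτ : ∀ j : ℕ, (τ ^ j) ϖ = Lc.ζ ^ j * ϖ := by
      intro j
      have := gd2_pow Lc.S₁ hτ Lc.memζ 1 (by rw [pow_one]; exact hτ') j
      rw [one_mul] at this
      exact this
    -- τ-stability of FF
    have hstab : ∀ y ∈ FF (Lc.S₁ ∪ {ϖ}), τ y ∈ FF (Lc.S₁ ∪ {ϖ}) := by
      intro y hy h hh
      obtain ⟨hh1, hh2⟩ := hSt' h hh
      have h1 : τ⁻¹ * h * τ ∈ Stab (Lc.S₁ ∪ {ϖ}) := by
        apply hSt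
        · exact mul_mem (mul_mem (inv_mem hτ) hh1) hτ
        · rw [AlgEquiv.mul_apply, hτ', AlgEquiv.mul_apply, map_mul, hh2, Lc.memζ h hh1, ← hτ',
            ← AlgEquiv.mul_apply, inv_mul_cancel]
          rfl
      have h2 := hy _ h1
      have h3 : τ ((τ⁻¹ * h * τ) y) = τ y := by rw [h2]
      rw [← AlgEquiv.mul_apply, mul_assoc, mul_inv_cancel_left, AlgEquiv.mul_apply] at h3
      exact h3
    have hstabj : ∀ j : ℕ, (τ ^ j) x ∈ FF (Lc.S₁ ∪ {ϖ}) := by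
      intro j
      induction j with
      | zero => exact hx
      | succ j ih =>
        rw [pow_succ', AlgEquiv.mul_apply]
        exact hstab _ ih
    have hτp : (τ ^ p) x = x := by
      apply hx
      apply hSt _ (pow_mem hτ p)
      rw [hpowτ, Lc.prim.pow_eq_one, one_mul]
    -- components
    set η : Acl k Ω := Lc.ζ⁻¹ with hη
    have hηζ : Lc.ζ * η = 1 := mul_inv_cancel₀ hζ0
    have hηp : η ^ p = 1 := by rw [hη, inv_pow, Lc.prim.pow_eq_one, inv_one]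
    have hηfix : ∀ h ∈ Stab Lc.S₁, h η = η := by
      intro h hh
      rw [hη, map_inv₀, Lc.memζ h hh]
    set X : ℕ → Acl k Ω := fun i => ∑ j ∈ Finset.range p, η ^ (i * j) * (τ ^ j) x with hX
    have hτX : ∀ i, τ (X i) = Lc.ζ ^ i * X i := by
      intro i
      have h1 : Lc.ζ ^ i * ∑ j ∈ Finset.range p, η ^ (i * (j + 1)) * (τ ^ (j + 1)) x = τ (X i) := by
        rw [hX]
        simp only [map_sum, Finset.mul_sum]
        refine Finset.sum_congr rfl fun j _ => ?_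
        rw [map_mul, map_pow, hηfix τ hτ, pow_succ' τ j, AlgEquiv.mul_apply, mul_add, mul_one,
          pow_add, ← mul_assoc, mul_comm (Lc.ζ ^ i), mul_assoc (η ^ (i * j)), ← mul_pow,
          mul_comm η, hηζ, one_pow, mul_one]
      have h2 : ∑ j ∈ Finset.range p, η ^ (i * (j + 1)) * (τ ^ (j + 1)) x = X i := by
        have h3 := Finset.sum_range_succ (fun j => η ^ (i * j) * (τ ^ j) x) p
        have h4 := Finset.sum_range_succ' (fun j => η ^ (i * j) * (τ ^ j) x) p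
        rw [h4] at h3
        have h5 : η ^ (i * p) * (τ ^ p) x = x := by
          rw [hτp, mul_comm i p, pow_mul, hηp, one_pow, one_mul]
        have h6 : η ^ (i * 0) * (τ ^ 0) x = x := by
          rw [mul_zero, pow_zero, pow_zero, one_mul]
          rfl
        rw [h5, h6] at h3
        exact add_right_cancel h3
      rw [← h1, h2]
    have hsum : ∑ i ∈ Finset.range p, X i = (p : Acl k Ω) * x := by
      rw [hX]
      simp only
      rw [Finset.sum_comm]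
      have h1 : ∀ j ∈ Finset.range p, ∑ i ∈ Finset.range p, η ^ (i * j) * (τ ^ j) x =
          if j = 0 then (p : Acl k Ω) * x else 0 := by
        intro j hj
        rw [← Finset.sum_mul]
        split_ifs with hj0
        · rw [hj0]
          simp
        · have h2 : ∑ i ∈ Finset.range p, η ^ (i * j) = ∑ i ∈ Finset.range p, (η ^ j) ^ i := by
            refine Finset.sum_congr rfl fun i _ => ?_
            rw [← pow_mul, mul_comm]
          have h3 := mul_geom_sum (η ^ j) p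
          rw [← pow_mul, mul_comm j p, pow_mul, hηp, one_pow, sub_self] at h3
          have h4 : η ^ j - 1 ≠ 0 := by
            intro h5
            have h6 : Lc.ζ ^ j = 1 := by
              have h7 : η ^ j = 1 := sub_eq_zero.1 h5
              rw [hη, inv_pow] at h7
              exact inv_eq_one.1 h7
            exact Lc.prim.pow_ne_one_of_pos_of_lt hj0 (Finset.mem_range.1 hj) h6
          rw [h2, (mul_eq_zero.1 h3).resolve_left h4, zero_mul]
      rw [Finset.sum_congr rfl h1, Finset.sum_ite_eq' (Finset.range p) 0]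
      rw [if_pos (Finset.mem_range.2 hp0)]
    set c : ℕ → Acl k Ω := fun i => X i / ((p : Acl k Ω) * ϖ ^ i) with hc
    have hcX : ∀ i, c i * ϖ ^ i = X i / (p : Acl k Ω) := by
      intro i
      rw [hc]
      field_simp
    have hsumc : ∑ i ∈ Finset.range p, c i * ϖ ^ i = x := by
      rw [Finset.sum_congr rfl fun i _ => hcX i, ← Finset.sum_div, hsum]
      field_simp
    have hτc : ∀ i, τ (c i) = c i := by
      intro i
      rw [hc]
      simp only
      rw [map_div₀, map_mul, map_pow, map_natCast, hτX, hτ', mul_pow]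
      have : Lc.ζ ^ i ≠ 0 := pow_ne_zero i hζ0
      field_simp
    have hcF : ∀ i, c i ∈ FF Lc.S₁ := by
      intro i g hg
      obtain ⟨a, _, ha⟩ := hact g hg
      have hh1 : (τ ^ a)⁻¹ * g ∈ Stab Lc.S₁ := mul_mem (inv_mem (pow_mem hτ a)) hg
      have hh2 : ((τ ^ a)⁻¹ * g) ϖ = ϖ := by
        rw [AlgEquiv.mul_apply, ha, ← hpowτ, ← AlgEquiv.mul_apply, inv_mul_cancel]
        rfl
      have hh3 := hSt _ hh1 hh2
      have hh4 : ((τ ^ a)⁻¹ * g) (c i) = c i := by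
        rw [hc]
        simp only
        rw [map_div₀, map_mul, map_pow, map_natCast, hh2]
        congr 1
        rw [hX]
        simp only
        rw [map_sum]
        refine Finset.sum_congr rfl fun j _ => ?_
        rw [map_mul, map_pow, hηfix _ hh1]
        congr 1
        exact hstabj j _ hh3
      have hh5 : ∀ b : ℕ, (τ ^ b) (c i) = c i := by
        intro b
        induction b with
        | zero => rfl
        | succ b ih => rw [pow_succ', AlgEquiv.mul_apply, ih, hτc]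
      have hh6 : (τ ^ a) (((τ ^ a)⁻¹ * g) (c i)) = c i := by rw [hh4, hh5]
      rw [← AlgEquiv.mul_apply, mul_inv_cancel_left] at hh6
      exact hh6
    -- the dominating term
    obtain ⟨i₀, hi₀, hmax⟩ := Finset.exists_max_image (Finset.range p)
      (fun i => nm Lc (c i * ϖ ^ i)) ⟨0, Finset.mem_range.2 hp0⟩
    have hex : ∃ i ∈ Finset.range p, c i ≠ 0 := by
      by_contra hcon
      push Not at hcon
      apply hx0
      rw [← hsumc]
      exact Finset.sum_eq_zero fun i hi => by rw [hcon i hi, zero_mul]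
    obtain ⟨i₁, hi₁, hi₁'⟩ := hex
    have hpos1 : 0 < nm Lc (c i₁ * ϖ ^ i₁) := gd2_nm_pos Lc (mul_ne_zero hi₁' (pow_ne_zero _ hϖ0))
    have hpos0 : 0 < nm Lc (c i₀ * ϖ ^ i₀) := lt_of_lt_of_le hpos1 (hmax i₁ hi₁)
    have hci₀ : c i₀ ≠ 0 := by
      intro h
      rw [h, zero_mul, gd2_nm_zero] at hpos0
      exact lt_irrefl _ hpos0
    obtain ⟨j₀, hj₀⟩ := hval (c i₀) (hcF i₀) hci₀
    have hv0 : nm Lc (c i₀ * ϖ ^ i₀) = nm Lc ϖ ^ ((p : ℤ) * j₀ + i₀) := by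
      rw [gd2_nm_mul, hj₀, gd2_nm_pow, zpow_add₀ hϖpos.ne', zpow_natCast]
    have hlt : ∀ i ∈ (Finset.range p).erase i₀, nm Lc (c i * ϖ ^ i) < nm Lc ϖ ^ ((p : ℤ) * j₀ + i₀) := by
      intro i hi
      rw [Finset.mem_erase] at hi
      rw [← hv0]
      by_cases hci : c i = 0
      · rw [hci, zero_mul, gd2_nm_zero]
        exact hpos0
      · refine lt_of_le_of_ne (hmax i hi.2) ?_
        intro heq
        obtain ⟨j, hj⟩ := hval (c i) (hcF i) hci
        have hv : nm Lc (c i * ϖ ^ i) = nm Lc ϖ ^ ((p : ℤ) * j + i) := by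
          rw [gd2_nm_mul, hj, gd2_nm_pow, zpow_add₀ hϖpos.ne', zpow_natCast]
        rw [hv, hv0] at heq
        have h1 := gd2_zpow_inj hϖpos hϖlt heq
        apply hi.1
        have h2 : ((i : ℤ)) % p = ((i₀ : ℤ)) % p := by
          have h3 : (i : ℤ) = (p : ℤ) * (j₀ - j) + i₀ := by linarith
          rw [h3, Int.mul_add_emod_self_left]
        rw [Int.emod_eq_of_lt (by positivity) (by exact_mod_cast Finset.mem_range.1 hi.2),
          Int.emod_eq_of_lt (by positivity) (by exact_mod_cast Finset.mem_range.1 hi₀)] at h2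
        exact_mod_cast h2
    have hsplit : x - c i₀ * ϖ ^ i₀ = ∑ i ∈ (Finset.range p).erase i₀, c i * ϖ ^ i := by
      rw [← Finset.add_sum_erase _ _ hi₀] at hsumc
      rw [← hsumc]
      ring
    have hBpos : 0 < nm Lc ϖ ^ ((p : ℤ) * j₀ + i₀) := zpow_pos hϖpos _
    refine ⟨(p : ℤ) * j₀ + i₀, c i₀ / (ϖ ^ p) ^ j₀, ?_, ?_, ?_⟩
    · rw [hϖ]
      exact div_mem (hcF i₀) (zpow_mem (mul_mem Lc.memπ hc₀) j₀)
    · rw [gd2_nm_div, hj₀, gd2_nm_zpow, gd2_nm_pow, ← zpow_natCast, ← zpow_mul]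
      exact div_self (zpow_ne_zero _ hϖpos.ne')
    · have h1 : c i₀ / (ϖ ^ p) ^ j₀ * ϖ ^ ((p : ℤ) * j₀ + i₀) = c i₀ * ϖ ^ i₀ := by
        rw [zpow_add₀ hϖ0, zpow_mul, zpow_natCast, zpow_natCast]
        have h2 : (ϖ ^ p) ^ j₀ ≠ 0 := zpow_ne_zero _ (pow_ne_zero _ hϖ0)
        field_simp
      rw [h1, hsplit]
      exact gd2_nm_sum_lt Lc _ _ hBpos hlt

end Pool.Agent.Helper14.BSC
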