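import Pool.Agent.Helper14.BSC.Stmts

/-!
MP_8312c9_nt, module IFD: a place all of whose values are in `k ∪ {∞}` gives a geometric section.
-/

set_option autoImplicit false

namespace Pool.Agent.Helper14.BSC

theorem ifd_lt {N : Type} [Field N] (A : ValuationSubring N) (x : N) :
    A.valuation x < 1 ↔ x = 0 ∨ x⁻¹ ∉ A := by
  by_cases hx : x = 0
  · subst hx
    simp
  · have h1 : (0 : A.ValueGroup) < A.valuation x := by
      rw [zero_lt_iff]
      exact (Valuation.ne_zero_iff _).2 hx
    constructor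
    · intro h
      right
      rw [← A.valuation_le_one_iff, map_inv₀, not_le]
      exact (one_lt_inv₀ h1).2 h
    · rintro (h | h)
      · exact absurd h hx
      · rw [← A.valuation_le_one_iff, map_inv₀, not_le] at h
        exact (one_lt_inv₀ h1).1 h

theorem st_IFD (hE : ST_EXTW) : ST_IFD := by
  intro k K Ω _ _ _ _ _ _ _ _ _ _ D p _ σ P ht hfix hval
  -- the elements of `k` are in `C`
  have hk : ∀ c : k, algebraMap k (LL D) c ∈ P.C := fun c => (P.base c).1
  -- residues
  have hres : ∀ x ∈ P.C, ∃ c : k, x - algebraMap k (LL D) c = 0 ∨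
      (x - algebraMap k (LL D) c)⁻¹ ∉ P.C := by
    intro x hx
    obtain ⟨z, hz⟩ := hval x
    cases z with
    | none => exact absurd hx hz
    | some c =>
      obtain ⟨h, hφ⟩ := hz
      refine ⟨c, ?_⟩
      obtain ⟨hc, hc'⟩ := P.base c
      have h1 : P.φ (⟨x, h⟩ - ⟨_, hc⟩) = 0 := by
        rw [map_sub, hφ, hc', sub_self]
      exact (P.ker _).1 h1
  obtain ⟨W, hW, hinv⟩ := hE k Ω D P.C hk (fun x hx => by
    obtain ⟨c, hc⟩ := hres x hx
    exact ⟨c, (ifd_lt P.C _).2 hc⟩)
  -- the embedding of `K` in the fixed field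
  have hmem : ∀ x : K, algebraMap K Ω x ∈ LL D := fun x g _ => hfix g x
  have hWC : ∀ x : K, algebraMap K Ω x ∈ W ↔ (⟨_, hmem x⟩ : LL D) ∈ P.C := fun x => hW ⟨_, hmem x⟩
  have hsub : ∀ (x : K) (c : k), (⟨_, hmem x⟩ : LL D) - algebraMap k (LL D) c =
      ⟨_, hmem (x - algebraMap k K c)⟩ := by
    intro x c
    apply Subtype.ext
    change algebraMap K Ω x - algebraMap k Ω c = algebraMap K Ω (x - algebraMap k K c)
    rw [map_sub, ← IsScalarTower.algebraMap_apply]
  have hinvm : ∀ x : K, (⟨_, hmem x⟩ : LL D)⁻¹ = ⟨_, hmem x⁻¹⟩ := by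
    intro x
    apply Subtype.ext
    change (algebraMap K Ω x)⁻¹ = algebraMap K Ω x⁻¹
    rw [map_inv₀]
  -- residues in `K`
  have hresK : ∀ x : K, algebraMap K Ω x ∈ W → ∃ c : k, x - algebraMap k K c = 0 ∨
      algebraMap K Ω (x - algebraMap k K c)⁻¹ ∉ W := by
    intro x hx
    obtain ⟨c, hc⟩ := hres _ ((hWC x).1 hx)
    refine ⟨c, ?_⟩
    rw [hsub] at hc
    rcases hc with hc | hc
    · left
      have h1 : algebraMap K Ω (x - algebraMap k K c) = 0 := congrArg Subtype.val hc
      exact (map_eq_zero (algebraMap K Ω)).1 h1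
    · right
      rw [hinvm] at hc
      rw [hWC]
      exact hc
  refine ⟨W.comap (algebraMap K Ω), ?_, ?_, ?_, W, rfl, hinv⟩
  · intro htop
    obtain ⟨t, ht⟩ := ht
    have hall : ∀ x : K, algebraMap K Ω x ∈ W := by
      intro x
      have h1 : x ∈ W.comap (algebraMap K Ω) := by
        rw [htop]
        exact ValuationSubring.mem_top x
      exact h1
    obtain ⟨c, hc⟩ := hresK t (hall t)
    rcases hc with hc | hc
    · apply ht
      rw [sub_eq_zero.1 hc]
      exact isAlgebraic_algebraMap c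
    · exact hc (hall _)
  · intro c
    change algebraMap K Ω (algebraMap k K c) ∈ W
    rw [← IsScalarTower.algebraMap_apply]
    exact (hW (algebraMap k (LL D) c)).2 (hk c)
  · intro a ha
    obtain ⟨c, hc⟩ := hresK a ha
    refine ⟨c, (ifd_lt _ _).2 ?_⟩
    rcases hc with hc | hc
    · exact Or.inl hc
    · exact Or.inr hc

end Pool.Agent.Helper14.BSC
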