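import Pool.Agent.Helper14.BSC.Stmts2

/-!
MP_8312c9_nt, module MOB1: one function with cofinitely many rational norm classes has a value in
`k ∪ {∞}`.
-/

set_option autoImplicit false

namespace Pool.Agent.Helper14.BSC

section

variable {k Ω : Type} [Field k] [Field Ω] [Algebra k Ω]

theorem mob1_mul (D : Sec k Ω) (k₁ : Type) [Field k₁] [Algebra k₁ k] {x y : LL D}
    (hx : NR D k₁ x) (hy : NR D k₁ y) : NR D k₁ (x * y) := by
  obtain ⟨r, hr, hr'⟩ := hx
  obtain ⟨s, hs, hs'⟩ := hy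
  refine ⟨r * s, mul_ne_zero hr hs, ?_⟩
  intro n hn
  obtain ⟨c, hc, g, hg, t, ht⟩ := hr' n hn
  obtain ⟨c', hc', g', hg', t', ht'⟩ := hs' n hn
  refine ⟨c * c', mul_ne_zero hc hc', g * g', ?_, t * t', ?_⟩
  · rw [map_mul, hg, hg', mul_pow]
    ring
  · rw [map_mul, ht, ht', mul_pow]
    ring

theorem mob1_inv (D : Sec k Ω) (k₁ : Type) [Field k₁] [Algebra k₁ k] {x : LL D}
    (hx : NR D k₁ x) : NR D k₁ x⁻¹ := by
  obtain ⟨r, hr, hr'⟩ := hx
  refine ⟨r⁻¹, inv_ne_zero hr, ?_⟩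
  intro n hn
  obtain ⟨c, hc, g, hg, t, ht⟩ := hr' n hn
  refine ⟨c⁻¹, inv_ne_zero hc, g⁻¹, ?_, t⁻¹, ?_⟩
  · rw [map_inv₀, hg, inv_pow, mul_inv]
  · have h1 : Algebra.norm k₁ c⁻¹ * Algebra.norm k₁ c = 1 := by
      rw [← map_mul, inv_mul_cancel₀ hc, map_one]
    rw [eq_inv_of_mul_eq_one_left h1, ht, inv_pow, mul_inv]

theorem mob1_const (D : Sec k Ω) (k₁ : Type) [Field k₁] [Algebra k₁ k] [FiniteDimensional k₁ k]
    {c : k} (hc : c ≠ 0) : NR D k₁ (algebraMap k (LL D) c) := by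
  refine ⟨Algebra.norm k₁ c, ?_, ?_⟩
  · exact Algebra.norm_ne_zero_iff.2 hc
  · intro n hn
    refine ⟨c, hc, 1, ?_, 1, ?_⟩
    · rw [one_pow, mul_one]
    · rw [one_pow, mul_one]

end

theorem st_MOB1 (hN : ST_N3) : ST_MOB1 := by
  intro k Ω _ _ _ _ _ D k₁ _ _ _ p _ T P f hf hfin
  classical
  have hinj : Function.Injective (algebraMap k (LL D)) := (algebraMap k (LL D)).injective
  -- the choice of `b`
  have hex : ∃ b : k, NR D k₁ (f - algebraMap k (LL D) b) ∧
      ∀ i, ∀ h : f ∈ (P i).C, (P i).φ ⟨f, h⟩ ≠ T.σ i b := by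
    have hinf : Infinite k := inferInstance
    have h1 : ∀ i : Fin T.n, {b : k | ∃ h : f ∈ (P i).C, (P i).φ ⟨f, h⟩ = T.σ i b}.Finite := by
      intro i
      apply Set.Subsingleton.finite
      rintro b ⟨h, hb⟩ b' ⟨h', hb'⟩
      exact (T.σ i).injective (hb.symm.trans hb')
    have h2 : ({b : k | ¬ NR D k₁ (f - algebraMap k (LL D) b)} ∪
        ⋃ i : Fin T.n, {b : k | ∃ h : f ∈ (P i).C, (P i).φ ⟨f, h⟩ = T.σ i b}).Finite :=
      hfin.union (Set.finite_iUnion h1)
    obtain ⟨b, hb⟩ := h2.exists_notMem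
    refine ⟨b, ?_, ?_⟩
    · by_contra hcon
      exact hb (Or.inl hcon)
    · intro i h heq
      exact hb (Or.inr (Set.mem_iUnion.2 ⟨i, h, heq⟩))
  obtain ⟨b, hb1, hb2⟩ := hex
  have hfb : f - algebraMap k (LL D) b ≠ 0 := sub_ne_zero.2 (hf b)
  set g : LL D := (f - algebraMap k (LL D) b)⁻¹ with hg
  have hg0 : g ≠ 0 := inv_ne_zero hfb
  have hginv : g⁻¹ = f - algebraMap k (LL D) b := inv_inv _
  have hbC : ∀ i, algebraMap k (LL D) b ∈ (P i).C := fun i => ((P i).base b).1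
  have hmem : ∀ i, g⁻¹ ∈ (P i).C ↔ f ∈ (P i).C := by
    intro i
    rw [hginv]
    constructor
    · intro h
      have := add_mem h (hbC i)
      rwa [sub_add_cancel] at this
    · intro h
      exact sub_mem h (hbC i)
  have hφ : ∀ i (h : f ∈ (P i).C) (h' : g⁻¹ ∈ (P i).C),
      (P i).φ ⟨g⁻¹, h'⟩ = (P i).φ ⟨f, h⟩ - T.σ i b := by
    intro i h h'
    obtain ⟨hb0, hb0'⟩ := (P i).base b
    rw [← hb0', ← map_sub]
    have h1 : (⟨g⁻¹, h'⟩ : (P i).C) = ⟨f, h⟩ - ⟨algebraMap k (LL D) b, hb0⟩ :=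
      Subtype.ext hginv
    rw [h1]
  have hgC : ∀ i, g ∈ (P i).C := by
    intro i
    by_cases h : f ∈ (P i).C
    · have h' := (hmem i).2 h
      have h1 := hφ i h h'
      have h2 : (P i).φ ⟨g⁻¹, h'⟩ ≠ 0 := by
        rw [h1]
        exact sub_ne_zero.2 (hb2 i h)
      by_contra hcon
      apply h2
      rw [(P i).ker]
      right
      change (g⁻¹)⁻¹ ∉ (P i).C
      rw [inv_inv]
      exact hcon
    · rcases (P i).C.mem_or_inv_mem g with h' | h'
      · exact h'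
      · exact absurd ((hmem i).1 h') h
  -- norm classes
  have hnr : ∀ b' : k, b' ≠ 0 → {a : k₁ | ¬ NR D k₁ (algebraMap k (LL D) b' * g -
      algebraMap k (LL D) (algebraMap k₁ k a))}.Finite := by
    intro b' hb'
    have hinj' : Function.Injective (fun a : k₁ => b + b' * (algebraMap k₁ k a)⁻¹) := by
      intro a a' haa
      have h1 := add_left_cancel haa
      have h2 := mul_left_cancel₀ hb' h1
      exact (algebraMap k₁ k).injective (inv_injective h2)
    have hpre := hfin.preimage (hinj'.injOn)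
    refine (hpre.union (Set.finite_singleton (0 : k₁))).subset ?_
    intro a ha
    by_contra hcon
    apply ha
    have ha0 : a ≠ 0 := fun h => hcon (Or.inr h)
    have hnra : NR D k₁ (f - algebraMap k (LL D) (b + b' * (algebraMap k₁ k a)⁻¹)) := by
      by_contra h
      exact hcon (Or.inl h)
    have ha0' : algebraMap k₁ k a ≠ 0 := (map_ne_zero _).2 ha0
    have hA : algebraMap k (LL D) (algebraMap k₁ k a) ≠ 0 := (map_ne_zero _).2 ha0'
    have hid : algebraMap k (LL D) b' * g - algebraMap k (LL D) (algebraMap k₁ k a) =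
        algebraMap k (LL D) (-(algebraMap k₁ k a)) *
          (f - algebraMap k (LL D) (b + b' * (algebraMap k₁ k a)⁻¹)) *
          (f - algebraMap k (LL D) b)⁻¹ := by
      rw [hg, map_neg, map_add, map_mul, map_inv₀]
      field_simp
      ring
    rw [hid]
    exact mob1_mul D k₁ (mob1_mul D k₁ (mob1_const D k₁ (neg_ne_zero.2 ha0')) hnra)
      (mob1_inv D k₁ hb1)
  obtain ⟨z, hz⟩ := hN k Ω D k₁ p T P g hnr hgC
  by_cases hz0 : z = 0
  · refine ⟨none, ?_⟩
    intro i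
    have h1 := hz i
    rw [hz0, map_zero, (P i).ker] at h1
    rcases h1 with h1 | h1
    · exact absurd h1 hg0
    · intro h
      exact h1 ((hmem i).2 h)
  · refine ⟨some (b + z⁻¹), ?_⟩
    intro i
    have h1 := hz i
    have h2 : T.σ i z ≠ 0 := (map_ne_zero _).2 hz0
    have h3 : g⁻¹ ∈ (P i).C := by
      by_contra hcon
      apply h2
      rw [← h1, (P i).ker]
      exact Or.inr hcon
    have h4 := (hmem i).1 h3
    refine ⟨h4, ?_⟩
    have h5 := hφ i h4 h3
    have h6 : (P i).φ ⟨g, hgC i⟩ * (P i).φ ⟨g⁻¹, h3⟩ = 1 := by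
      rw [← map_mul, ← map_one (P i).φ]
      congr 1
      apply Subtype.ext
      exact mul_inv_cancel₀ hg0
    rw [h1] at h6
    rw [map_add, map_inv₀]
    have h7 : (P i).φ ⟨g⁻¹, h3⟩ = (T.σ i z)⁻¹ := eq_inv_of_mul_eq_one_right h6
    rw [h7] at h5
    rw [h5]
    ring

end Pool.Agent.Helper14.BSC
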